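import Mathlib
import Pool.Agent.D0H59.SU.Lin
import Pool.Agent.D0H59.SU.Tay

/-!
# The subspace theorem for independent numbers `a_j u_j`, with `u_j` composed of fixed primes
-/

set_option autoImplicit false

open Finset Filter Topology

namespace Pool.Agent.D0H59.AR

open Pool.Agent.D0H59.SU

/-- `max 1 |a|` -/
noncomputable def ht (a : ℤ) : ℝ := max 1 |(a : ℝ)|

lemma one_le_ht (a : ℤ) : 1 ≤ ht a := le_max_left _ _

lemma abs_le_ht (a : ℤ) : |(a : ℝ)| ≤ ht a := le_max_right _ _

lemma ht_pos (a : ℤ) : 0 < ht a := lt_of_lt_of_le one_pos (one_le_ht a)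

/-- independent numbers `a_j u_j` have no exceptionally small algebraic combination -/
theorem core (U : Ultrafilter ℕ) (S : Finset ℕ) {κ : Type} [Fintype κ] (j0 : κ)
    (N : ℕ → ℝ) (hN : Tendsto N U atTop) (a : κ → ℕ → ℤ) (u : κ → ℕ → ℕ)
    (hu : ∀ j m, u j m ∈ Nat.factoredNumbers S)
    (hli : LinearIndependent ℚ (fun j => ger U (fun m => a j m * (u j m : ℤ))))
    (lam : κ → ℝ) (halg : ∀ j, IsAlgebraic ℚ (lam j)) (hlam0 : lam j0 ≠ 0)
    (C δ : ℝ) (hC : 0 ≤ C) (hδ : 0 < δ)
    (hz : ∀ᶠ m : ℕ in (U : Filter ℕ), ∀ j, |(a j m : ℝ) * u j m| ≤ Real.exp (C * N m))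
    (hsmall : ∀ᶠ m : ℕ in (U : Filter ℕ), |∑ j, lam j * ((a j m : ℝ) * u j m)| ≤
      Real.exp (-(δ * N m)) * |(a j0 m : ℝ) * u j0 m| / ∏ j, ht (a j m)) : False := by
  classical
  have hcard : 0 < Fintype.card κ := Fintype.card_pos_iff.2 ⟨j0⟩
  obtain ⟨n, hn⟩ : ∃ n, Fintype.card κ = n + 1 := ⟨Fintype.card κ - 1, by omega⟩
  set e0 : κ ≃ Fin (n + 1) := Fintype.equivFinOfCardEq hn with he0
  set e : κ ≃ Fin (n + 1) := e0.trans (Equiv.swap (e0 j0) (Fin.last n)) with he
  have hej0 : e j0 = Fin.last n := by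
    rw [he, Equiv.trans_apply, Equiv.swap_apply_left]
  have hesymm : e.symm (Fin.last n) = j0 := by rw [← hej0, Equiv.symm_apply_apply]
  have hN0 : ∀ᶠ m in (U : Filter ℕ), 0 ≤ N m := hN.eventually_ge_atTop 0
  have hupos : ∀ j m, (0 : ℝ) < u j m := fun j m => by
    exact_mod_cast Nat.pos_of_ne_zero (hu j m).1
  have hu1 : ∀ j m, (1 : ℝ) ≤ u j m := fun j m => by
    exact_mod_cast Nat.one_le_iff_ne_zero.2 (hu j m).1
  have hHpos : ∀ m, 0 < ∏ j, ht (a j m) := fun m => Finset.prod_pos fun j _ => ht_pos _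
  have ha0 : ∀ᶠ m in (U : Filter ℕ), ∀ j : κ, a j m ≠ 0 := by
    rw [Filter.eventually_all]
    intro j
    have h1 := hli.ne_zero j
    have h2 : ¬ ∀ᶠ m in (U : Filter ℕ), a j m = 0 := by
      intro h3
      apply h1
      unfold ger
      rw [Submodule.mkQ_apply, Submodule.Quotient.mk_eq_zero, mem_Z]
      filter_upwards [h3] with m hm
      rw [hm, zero_mul, Int.cast_zero]
    exact Ultrafilter.eventually_not.2 h2
  have hzpos : ∀ᶠ m in (U : Filter ℕ), 0 < |(a j0 m : ℝ) * u j0 m| := by
    filter_upwards [ha0] with m hm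
    rw [abs_pos]
    exact mul_ne_zero (by exact_mod_cast hm j0) (hupos _ _).ne'
  have hHlog : ∀ᶠ m in (U : Filter ℕ), ∀ j, Real.log (ht (a j m)) ≤ C * N m := by
    filter_upwards [hz, hN0] with m h1 h2 j
    rw [← Real.log_exp (C * N m)]
    apply Real.log_le_log (ht_pos _)
    unfold ht
    apply max_le
    · exact Real.one_le_exp (mul_nonneg hC h2)
    · refine le_trans ?_ (h1 j)
      rw [abs_mul, Nat.abs_cast]
      have h3 := hu1 j m
      have h4 := abs_nonneg (a j m : ℝ)
      nlinarith
  have hulog : ∀ᶠ m in (U : Filter ℕ), ∀ j : κ, Real.log (u j m) ≤ C * N m := by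
    filter_upwards [hz, ha0] with m h1 h2 j
    rw [← Real.log_exp (C * N m)]
    apply Real.log_le_log (hupos _ _)
    refine le_trans ?_ (h1 j)
    rw [abs_mul, Nat.abs_cast]
    have h3 : (1 : ℝ) ≤ |(a j m : ℝ)| := by
      exact_mod_cast Int.one_le_abs (h2 j)
    have h4 := hupos j m
    nlinarith
  have hlogH0 : ∀ m j, 0 ≤ Real.log (ht (a j m)) := fun m j => Real.log_nonneg (one_le_ht _)
  set A : ℕ → Fin (n + 1) → ℝ := fun m i => if i = Fin.last n then
    Real.exp (-(δ * N m)) * |(a j0 m : ℝ) * u j0 m| / ∏ j, ht (a j m) else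
      (u (e.symm i) m : ℝ) * ht (a (e.symm i) m) with hA
  have hAlog : ∀ᶠ m in (U : Filter ℕ), ∀ i, Real.log (A m i) = if i = Fin.last n then
      -(δ * N m) + Real.log |(a j0 m : ℝ) * u j0 m| - ∑ j, Real.log (ht (a j m)) else
      Real.log (u (e.symm i) m) + Real.log (ht (a (e.symm i) m)) := by
    filter_upwards [hzpos] with m hm i
    rw [hA]
    simp only
    split_ifs with h
    · rw [Real.log_div (mul_pos (Real.exp_pos _) hm).ne' (hHpos m).ne',
        Real.log_mul (Real.exp_pos _).ne' hm.ne', Real.log_exp,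
        Real.log_prod fun j _ => (ht_pos _).ne']
    · rw [Real.log_mul (hupos _ m).ne' (ht_pos _).ne']
  have hzlog : ∀ᶠ m in (U : Filter ℕ), Real.log |(a j0 m : ℝ) * u j0 m| ≤ C * N m ∧
      Real.log |(a j0 m : ℝ) * u j0 m| ≤ Real.log (u j0 m) + Real.log (ht (a j0 m)) ∧
      0 ≤ Real.log |(a j0 m : ℝ) * u j0 m| := by
    filter_upwards [hzpos, hz, ha0] with m h1 h2 h3
    refine ⟨?_, ?_, ?_⟩
    · rw [← Real.log_exp (C * N m)]
      exact Real.log_le_log h1 (h2 j0)
    · rw [← Real.log_mul (hupos _ m).ne' (ht_pos _).ne']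
      apply Real.log_le_log h1
      rw [abs_mul, Nat.abs_cast, mul_comm]
      exact mul_le_mul_of_nonneg_left (abs_le_ht _) (Nat.cast_nonneg _)
    · apply Real.log_nonneg
      rw [abs_mul, Nat.abs_cast]
      have h4 : (1 : ℝ) ≤ |(a j0 m : ℝ)| := by
        exact_mod_cast Int.one_le_abs (h3 j0)
      have h5 := hu1 j0 m
      nlinarith
  obtain ⟨y, hy, hyr⟩ := sub_ultra U (n := n + 1) (by omega) (∏ p ∈ S.filter Nat.Prime, p)
    (fun i j => if i = Fin.last n then lam (e.symm j) else if i = j then 1 else 0)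
    (by
      intro i j
      split_ifs
      · exact halg _
      · exact isAlgebraic_one
      · exact isAlgebraic_zero)
    (by
      intro i j hij
      rw [if_neg (fun h => by rw [h] at hij; exact absurd hij (not_lt.2 (Fin.le_last _))),
        if_neg hij.ne])
    (by
      intro i
      simp only
      split_ifs with h
      · rw [h, hesymm]
        exact hlam0
      · exact one_ne_zero)
    N hN (fun m i => a (e.symm i) m * (u (e.symm i) m : ℤ)) (fun m i => u (e.symm i) m)
    (Filter.Eventually.of_forall fun m i => (hu _ m).1)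
    (Filter.Eventually.of_forall fun m i => by
      rw [Nat.primeFactors_prod fun p hp => (Finset.mem_filter.1 hp).2]
      intro p hp
      exact Finset.mem_filter.2 ⟨Nat.primeFactors_subset_of_mem_factoredNumbers (hu _ m) hp,
        Nat.prime_of_mem_primeFactors hp⟩)
    (Filter.Eventually.of_forall fun m i => Dvd.intro_left _ rfl)
    A
    (by
      filter_upwards [hzpos] with m hm i
      rw [hA]
      simp only
      split_ifs with h
      · exact div_pos (mul_pos (Real.exp_pos _) hm) (hHpos m)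
      · exact mul_pos (hupos _ m) (ht_pos _))
    ((n + 1) * C + 2 * C + δ) δ (by positivity) hδ
    (by
      filter_upwards [hulog, hN0] with m hm h0
      have h1 : ∑ i : Fin (n + 1), Real.log (u (e.symm i) m) ≤ ∑ _i : Fin (n + 1), C * N m :=
        Finset.sum_le_sum fun i _ => hm _
      rw [Finset.sum_const, Finset.card_univ, Fintype.card_fin, nsmul_eq_mul] at h1
      push_cast at h1
      have h2 : 0 ≤ (2 * C + δ) * N m := mul_nonneg (by positivity) h0
      nlinarith)
    (by
      filter_upwards [hulog, hAlog, hHlog, hzlog, hN0] with m hm hAl hHl hzl h0 i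
      rw [hAl]
      have hCN : 0 ≤ C * N m := mul_nonneg hC h0
      have h1 : 0 ≤ (n : ℝ) * (C * N m) := by positivity
      have h3 : 0 ≤ δ * N m := by positivity
      split_ifs with h
      · have h4 : ∑ j, Real.log (ht (a j m)) ≤ (n + 1) * (C * N m) := by
          have h5 : ∑ j, Real.log (ht (a j m)) ≤ ∑ _j : κ, C * N m :=
            Finset.sum_le_sum fun j _ => hHl j
          rw [Finset.sum_const, Finset.card_univ, hn, nsmul_eq_mul] at h5
          push_cast at h5
          exact h5
        have h5 : 0 ≤ ∑ j, Real.log (ht (a j m)) := Finset.sum_nonneg fun t _ => hlogH0 m t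
        rw [abs_le]
        constructor
        · nlinarith [hzl.1, hzl.2.2]
        · nlinarith [hzl.1, hzl.2.2]
      · have h4 := hm (e.symm i)
        have h5 := hHl (e.symm i)
        have h6 := hlogH0 m (e.symm i)
        have h7 : 0 ≤ Real.log (u (e.symm i) m) := Real.log_natCast_nonneg _
        rw [abs_le]
        constructor
        · nlinarith
        · nlinarith)
    (by
      filter_upwards [hAlog, hzlog] with m hAl hzl
      have h1 : ∑ i, Real.log (A m i) = (-(δ * N m) + Real.log |(a j0 m : ℝ) * u j0 m| -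
          ∑ j, Real.log (ht (a j m))) +
          ∑ i : Fin n, (Real.log (u (e.symm i.castSucc) m) +
            Real.log (ht (a (e.symm i.castSucc) m))) := by
        rw [Fin.sum_univ_castSucc, hAl (Fin.last n), if_pos rfl, add_comm]
        congr 1
        refine Finset.sum_congr rfl fun i _ => ?_
        rw [hAl, if_neg (Fin.castSucc_lt_last i).ne]
      have h2 : ∑ i : Fin (n + 1), Real.log (u (e.symm i) m) =
          ∑ i : Fin n, Real.log (u (e.symm i.castSucc) m) + Real.log (u j0 m) := by
        rw [Fin.sum_univ_castSucc, hesymm]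
      have h3 : ∑ j, Real.log (ht (a j m)) =
          ∑ i : Fin n, Real.log (ht (a (e.symm i.castSucc) m)) + Real.log (ht (a j0 m)) := by
        rw [← Equiv.sum_comp e.symm (fun j => Real.log (ht (a j m))), Fin.sum_univ_castSucc,
          hesymm]
      rw [h1, h2, h3, Finset.sum_add_distrib]
      linarith [hzl.2.1])
    (by
      filter_upwards [hsmall] with m h1 i
      rw [hA]
      simp only
      split_ifs with h
      · have h3 : ∑ j, lam (e.symm j) * (((a (e.symm j) m * (u (e.symm j) m : ℤ)) : ℤ) : ℝ) =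
            ∑ j, lam j * ((a j m : ℝ) * u j m) := by
          rw [← Equiv.sum_comp e.symm (fun j => lam j * ((a j m : ℝ) * u j m))]
          refine Finset.sum_congr rfl fun j _ => ?_
          push_cast
          rfl
        rw [h3]
        exact h1
      · have h3 : ∑ j, (if i = j then (1 : ℝ) else 0) *
            (((a (e.symm j) m * (u (e.symm j) m : ℤ)) : ℤ) : ℝ) =
            ((a (e.symm i) m * (u (e.symm i) m : ℤ) : ℤ) : ℝ) := by
          rw [Finset.sum_eq_single i]
          · rw [if_pos rfl, one_mul]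
          · intro j _ hj
            rw [if_neg (Ne.symm hj), zero_mul]
          · intro h
            exact absurd (Finset.mem_univ _) h
        rw [h3]
        push_cast
        rw [abs_mul, Nat.abs_cast, mul_comm]
        exact mul_le_mul_of_nonneg_left (abs_le_ht _) (Nat.cast_nonneg _))
  -- contradiction with independence
  have h1 : ∑ j, (y (e j) : ℚ) • ger U (fun m => a j m * (u j m : ℤ)) = ger U (fun _ => 0) := by
    rw [ger_eq]
    filter_upwards [hyr] with m hm
    have h2 : ∑ j, (y (e j) : ℚ) * ((a j m * (u j m : ℤ) : ℤ) : ℚ) =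
        ∑ i, (y i : ℚ) * ((a (e.symm i) m * (u (e.symm i) m : ℤ) : ℤ) : ℚ) := by
      rw [← Equiv.sum_comp e.symm (fun j => (y (e j) : ℚ) * ((a j m * (u j m : ℤ) : ℤ) : ℚ))]
      simp
    rw [h2, Int.cast_zero]
    symm
    exact_mod_cast hm
  have h2 : ger U (fun _ => 0) = 0 := by
    unfold ger
    simp only [Int.cast_zero]
    exact map_zero _
  rw [h2] at h1
  have h3 := Fintype.linearIndependent_iff.1 hli (fun j => (y (e j) : ℚ)) h1
  apply hy
  funext i
  have h4 := h3 (e.symm i)
  simp only [Equiv.apply_symm_apply] at h4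
  exact_mod_cast h4

end Pool.Agent.D0H59.AR
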