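import Mathlib
import Pool.Agent.D0H59.AR.Core

/-!
# An additive form of the theorems of Roth and Ridout
-/

set_option autoImplicit false

open Finset Filter Topology

namespace Pool.Agent.D0H59.AR

open Pool.Agent.D0H59.SU

lemma prod_ht_le {κ : Type} [Fintype κ] {k : ℕ} (g : κ → Fin k) (hg : Function.Injective g)
    (a : Fin k → ℤ) : ∏ j, ht (a (g j)) ≤ ∏ t, ht (a t) := by
  classical
  have h1 : 0 < ∏ j, ht (a (g j)) := Finset.prod_pos fun _ _ => ht_pos _
  have h2 : 0 < ∏ t, ht (a t) := Finset.prod_pos fun _ _ => ht_pos _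
  rw [← Real.log_le_log_iff h1 h2, Real.log_prod fun _ _ => (ht_pos _).ne',
    Real.log_prod fun _ _ => (ht_pos _).ne',
    ← Finset.sum_image (f := fun t => Real.log (ht (a t))) (s := Finset.univ)
      (g := g) (fun x _ y _ h => hg h)]
  exact Finset.sum_le_sum_of_subset_of_nonneg (Finset.subset_univ _)
    fun t _ _ => Real.log_nonneg (one_le_ht _)

/-- the main theorem along sequences -/
theorem seq (ξ : ℝ) (hξ : IsAlgebraic ℚ ξ) (hirr : Irrational ξ) (S : Finset ℕ) (k : ℕ)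
    (M : ℕ) (C ε : ℝ) (hC : 0 ≤ C) (hε : 0 < ε)
    (a : ℕ → Fin k → ℤ) (u : ℕ → Fin k → ℕ) (b d : ℕ → Fin k → ℤ) (p : ℕ → ℤ) (q : ℕ → ℕ)
    (hq : ∀ m, 1 ≤ q m) (hu : ∀ m t, u m t ∈ Nat.factoredNumbers S)
    (hb : ∀ m t, |b m t| ≤ M) (hd : ∀ m t, |d m t| ≤ M)
    (hHC : ∀ m, ∏ t, ht (a m t) ≤ (q m : ℝ) ^ C)
    (hp : ∀ m, p m = ∑ t, b m t * (a m t * u m t))
    (hqs : ∀ m, (q m : ℤ) = ∑ t, d m t * (a m t * u m t))
    (hbad : ∀ m, |ξ - (p m : ℝ) / q m| ≤ 1 / ((m : ℝ) + 1) *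
      ((q m : ℝ) ^ (-ε) / ∏ t, ht (a m t))) : False := by
  classical
  set U : Ultrafilter ℕ := Filter.hyperfilter ℕ with hUdef
  have hU : (U : Filter ℕ) ≤ atTop := Nat.hyperfilter_le_atTop
  have hq1 : ∀ m, (1 : ℝ) ≤ q m := fun m => by exact_mod_cast hq m
  have hq0 : ∀ m, (0 : ℝ) < q m := fun m => lt_of_lt_of_le one_pos (hq1 m)
  have hH1 : ∀ m, 1 ≤ ∏ t, ht (a m t) := fun m => by
    have : ∏ t : Fin k, (1 : ℝ) ≤ ∏ t, ht (a m t) :=
      Finset.prod_le_prod (fun _ _ => zero_le_one) fun t _ => one_le_ht _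
    simpa using this
  have hbad1 : ∀ m, |ξ - (p m : ℝ) / q m| ≤ 1 / ((m : ℝ) + 1) := by
    intro m
    refine (hbad m).trans ?_
    have h1 : (q m : ℝ) ^ (-ε) ≤ 1 := Real.rpow_le_one_of_one_le_of_nonpos (hq1 m) (by linarith)
    have h2 : (q m : ℝ) ^ (-ε) / ∏ t, ht (a m t) ≤ 1 := by
      rw [div_le_one (by linarith [hH1 m])]
      exact h1.trans (hH1 m)
    have h3 : (0 : ℝ) ≤ 1 / ((m : ℝ) + 1) := by positivity
    nlinarith
  have hone : ∀ m : ℕ, 1 / ((m : ℝ) + 1) ≤ 1 := by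
    intro m
    rw [div_le_one (by positivity)]
    linarith [(Nat.cast_nonneg m : (0 : ℝ) ≤ m)]
  have hpq : ∀ m, |(p m : ℝ)| ≤ (|ξ| + 1) * q m := by
    intro m
    have h1 := hbad1 m
    have h2 := hone m
    have h3 : |(p m : ℝ) / q m| ≤ |ξ| + 1 := by
      have h4 : |(p m : ℝ) / q m| ≤ |ξ| + |ξ - (p m : ℝ) / q m| := by
        have h5 : (p m : ℝ) / q m = ξ + -(ξ - (p m : ℝ) / q m) := by ring
        calc |(p m : ℝ) / q m| = |ξ + -(ξ - (p m : ℝ) / q m)| := by rw [← h5]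
          _ ≤ _ := by
              refine (abs_add_le _ _).trans ?_
              rw [abs_neg]
      linarith
    rwa [abs_div, Nat.abs_cast, div_le_iff₀ (hq0 m)] at h3
  -- the denominators tend to infinity
  have hqt : Tendsto (fun m => (q m : ℝ)) U atTop := by
    by_contra hno
    rw [tendsto_atTop, not_forall] at hno
    obtain ⟨Q0, hQ0⟩ := hno
    have hlt : ∀ᶠ m in (U : Filter ℕ), (q m : ℝ) < Q0 := by
      have := Ultrafilter.eventually_not.2 hQ0
      filter_upwards [this] with m hm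
      exact not_le.1 hm
    obtain ⟨⟨p0, q0⟩, hc⟩ := const_of_finite U
      (Set.Icc (-(⌈Q0 * (|ξ| + 1)⌉ : ℤ)) ⌈Q0 * (|ξ| + 1)⌉ ×ˢ Set.Iic ⌈Q0⌉₊)
      ((Set.finite_Icc _ _).prod (Set.finite_Iic _)) (fun m => (p m, q m)) (by
        filter_upwards [hlt] with m hm
        have h4 : |(p m : ℝ)| ≤ Q0 * (|ξ| + 1) := by
          have h3 := hpq m
          have h5 : 0 ≤ |ξ| + 1 := by positivity
          nlinarith
        have h5 : |(p m : ℝ)| ≤ ⌈Q0 * (|ξ| + 1)⌉ := h4.trans (Int.le_ceil _)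
        have h6 : |p m| ≤ ⌈Q0 * (|ξ| + 1)⌉ := by exact_mod_cast h5
        refine ⟨Set.mem_Icc.2 (abs_le.1 h6), ?_⟩
        rw [Set.mem_Iic]
        have h7 : (q m : ℝ) ≤ ⌈Q0⌉₊ := hm.le.trans (Nat.le_ceil _)
        exact_mod_cast h7)
    have h1 : ∀ᶠ m : ℕ in (U : Filter ℕ), |ξ - (p0 : ℝ) / q0| ≤ 1 / ((m : ℝ) + 1) := by
      filter_upwards [hc] with m hm
      have h2 := hbad1 m
      rw [Prod.mk.injEq] at hm
      rw [hm.1, hm.2] at h2
      exact h2
    have h2 : Tendsto (fun m : ℕ => 1 / ((m : ℝ) + 1)) U (𝓝 0) :=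
      tendsto_one_div_add_atTop_nhds_zero_nat.mono_left hU
    have h3 : |ξ - (p0 : ℝ) / q0| ≤ 0 := ge_of_tendsto h2 h1
    have h4 := abs_nonpos_iff.1 h3
    apply hirr
    refine ⟨(p0 : ℚ) / q0, ?_⟩
    push_cast
    linarith
  set N : ℕ → ℝ := fun m => Real.log (q m) with hNdef
  have hN : Tendsto N U atTop := Real.tendsto_log_atTop.comp hqt
  have hN0 : ∀ m, 0 ≤ N m := fun m => Real.log_nonneg (hq1 m)
  have hqexp : ∀ m, (q m : ℝ) = Real.exp (N m) := fun m => (Real.exp_log (hq0 m)).symm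
  -- the constant coefficients
  have hcst : ∀ c : ℕ → Fin k → ℤ, (∀ m t, |c m t| ≤ M) → ∃ c0 : Fin k → ℤ,
      ∀ᶠ m in (U : Filter ℕ), c m = c0 := by
    intro c hc
    exact const_of_finite U {c : Fin k → ℤ | ∀ t, c t ∈ Set.Icc (-(M : ℤ)) M}
      (by
        have := Set.Finite.pi (t := fun _ : Fin k => Set.Icc (-(M : ℤ)) M)
          (fun _ => Set.finite_Icc _ _)
        refine this.subset fun c hc => ?_
        rw [Set.mem_pi]
        exact fun t _ => hc t)
      c (Filter.Eventually.of_forall fun m t => Set.mem_Icc.2 (abs_le.1 (hc m t)))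
  obtain ⟨b0, hb0⟩ := hcst b hb
  obtain ⟨d0, hd0⟩ := hcst d hd
  -- the basis
  set z : Fin k → ℕ → ℤ := fun t m => a m t * u m t with hz
  have hzr : ∀ t m, (z t m : ℝ) = (a m t : ℝ) * u m t := fun t m => by
    rw [hz]; push_cast; rfl
  obtain ⟨κ, f, hf, hspan, hli⟩ := exists_linearIndependent' ℚ (fun t => ger U (z t))
  have : Finite κ := Finite.of_injective f hf
  have : Fintype κ := Fintype.ofFinite κ
  have hr : ∀ t, ∃ r : κ → ℚ, ∑ j, r j • ger U (z (f j)) = ger U (z t) := by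
    intro t
    have h1 : ger U (z t) ∈ Submodule.span ℚ (Set.range ((fun t => ger U (z t)) ∘ f)) := by
      rw [hspan]
      exact Submodule.subset_span ⟨t, rfl⟩
    exact (Submodule.mem_span_range_iff_exists_fun ℚ).1 h1
  choose r hr using hr
  have hev : ∀ᶠ m in (U : Filter ℕ), ∀ t, (z t m : ℚ) = ∑ j, r t j * (z (f j) m : ℚ) := by
    rw [Filter.eventually_all]
    intro t
    exact (ger_eq U (r t) (fun j => z (f j)) (z t)).1 (hr t)
  have hcomb : ∀ (c : Fin k → ℤ) (s : ℕ → ℤ), (∀ᶠ m in (U : Filter ℕ),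
      s m = ∑ t, c t * z t m) →
      ∀ᶠ m in (U : Filter ℕ), (s m : ℝ) =
        ∑ j, ((∑ t, (c t : ℚ) * r t j : ℚ) : ℝ) * (z (f j) m : ℝ) := by
    intro c s hs
    filter_upwards [hs, hev] with m h1 h2
    have h3 : (s m : ℚ) = ∑ j, (∑ t, (c t : ℚ) * r t j) * (z (f j) m : ℚ) := by
      rw [h1]
      push_cast
      calc ∑ t, (c t : ℚ) * (z t m : ℚ) = ∑ t, ∑ j, (c t : ℚ) * (r t j * (z (f j) m : ℚ)) := by
            refine Finset.sum_congr rfl fun t _ => ?_
            rw [h2 t, Finset.mul_sum]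
        _ = _ := by
            rw [Finset.sum_comm]
            refine Finset.sum_congr rfl fun j _ => ?_
            rw [Finset.sum_mul]
            refine Finset.sum_congr rfl fun t _ => by ring
    exact_mod_cast congrArg (fun t : ℚ => (t : ℝ)) h3
  set α : κ → ℚ := fun j => ∑ t, (d0 t : ℚ) * r t j with hα
  set β : κ → ℚ := fun j => ∑ t, (b0 t : ℚ) * r t j with hβ
  have hqe : ∀ᶠ m in (U : Filter ℕ), (q m : ℝ) = ∑ j, (α j : ℝ) * (z (f j) m : ℝ) := by
    have := hcomb d0 (fun m => (q m : ℤ)) (by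
      filter_upwards [hd0] with m hm
      rw [hqs m, hm])
    filter_upwards [this] with m hm
    have h1 : (q m : ℝ) = (((q m : ℕ) : ℤ) : ℝ) := by push_cast; rfl
    rw [h1, hm]
  have hpe : ∀ᶠ m in (U : Filter ℕ), (p m : ℝ) = ∑ j, (β j : ℝ) * (z (f j) m : ℝ) :=
    hcomb b0 p (by
      filter_upwards [hb0] with m hm
      rw [hp m, hm])
  -- the elements which matter
  set J : Type := {j : κ // α j ≠ 0 ∨ β j ≠ 0} with hJ
  have hsumJ : ∀ (w : κ → ℝ) (m : ℕ), (∀ j, α j = 0 → β j = 0 → w j = 0) →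
      ∑ j, w j * (z (f j) m : ℝ) = ∑ j : J, w j.1 * ((a m (f j.1) : ℝ) * u m (f j.1)) := by
    intro w m hw
    have h1 : ∑ j : J, w j.1 * ((a m (f j.1) : ℝ) * u m (f j.1)) =
        ∑ j ∈ Finset.univ.filter (fun j : κ => α j ≠ 0 ∨ β j ≠ 0),
          w j * ((a m (f j) : ℝ) * u m (f j)) := by
      rw [Finset.sum_subtype (Finset.univ.filter (fun j : κ => α j ≠ 0 ∨ β j ≠ 0))
        (p := fun j : κ => α j ≠ 0 ∨ β j ≠ 0) (fun j => by simp)]
    rw [h1, Finset.sum_filter_of_ne]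
    · exact Finset.sum_congr rfl fun j _ => by rw [hzr]
    · intro j _ hj
      by_contra hno
      rw [not_or, not_not, not_not] at hno
      exact hj (by rw [hw j hno.1 hno.2, zero_mul])
  have hliJ : LinearIndependent ℚ (fun j : J => ger U (fun m => a m (f j.1) *
      (u m (f j.1) : ℤ))) := hli.comp (fun j : J => j.1) Subtype.val_injective
  have hHJ : ∀ m, ∏ j : J, ht (a m (f j.1)) ≤ ∏ t, ht (a m t) := fun m =>
    prod_ht_le (fun j : J => f j.1) (fun x y h => Subtype.ext (hf h)) (a m)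
  have hHJ0 : ∀ m, 0 < ∏ j : J, ht (a m (f j.1)) := fun m =>
    Finset.prod_pos fun j _ => ht_pos _
  -- the largest element with nonzero coefficient in `q`
  have hFne : (Finset.univ.filter fun j : κ => α j ≠ 0).Nonempty := by
    rw [Finset.nonempty_iff_ne_empty]
    intro he
    obtain ⟨m, hm⟩ := hqe.exists
    have h1 : ∑ j, (α j : ℝ) * (z (f j) m : ℝ) = 0 := by
      refine Finset.sum_eq_zero fun j _ => ?_
      have h2 : α j = 0 := by
        by_contra h3
        have : j ∈ Finset.univ.filter fun j : κ => α j ≠ 0 := by simp [h3]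
        rw [he] at this
        simp at this
      rw [h2, Rat.cast_zero, zero_mul]
    linarith [hq0 m]
  have hmax : ∀ m, ∃ j : κ, α j ≠ 0 ∧ ∀ j', α j' ≠ 0 → |(z (f j') m : ℝ)| ≤ |(z (f j) m : ℝ)| := by
    intro m
    obtain ⟨j, hj, hj'⟩ := Finset.exists_max_image _ (fun j => |(z (f j) m : ℝ)|) hFne
    refine ⟨j, (Finset.mem_filter.1 hj).2, fun j' h => hj' j' (by simp [h])⟩
  choose g hg0 hgmax using hmax
  obtain ⟨j0, hj0⟩ := const_of_finite U Set.univ Set.finite_univ g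
    (Filter.Eventually.of_forall fun _ => Set.mem_univ _)
  have hαj0 : α j0 ≠ 0 := by
    obtain ⟨m, hm⟩ := hj0.exists
    rw [← hm]
    exact hg0 m
  set c1 : ℝ := 1 + ∑ j, |(α j : ℝ)| with hc1
  have hc1' : 0 ≤ ∑ j, |(α j : ℝ)| := Finset.sum_nonneg fun _ _ => abs_nonneg _
  have hc1pos : 0 < c1 := by linarith
  have hqle : ∀ᶠ m in (U : Filter ℕ), (q m : ℝ) ≤ c1 * |(a m (f j0) : ℝ) * u m (f j0)| := by
    filter_upwards [hqe, hj0] with m h1 h2
    have h3 := hgmax m
    rw [h2] at h3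
    have h4 : (q m : ℝ) ≤ ∑ j, |(α j : ℝ)| * |(z (f j0) m : ℝ)| := by
      rw [h1]
      refine Finset.sum_le_sum fun j _ => ?_
      by_cases h5 : α j = 0
      · rw [h5]
        simp
      · refine (le_abs_self _).trans ?_
        rw [abs_mul]
        exact mul_le_mul_of_nonneg_left (h3 j h5) (abs_nonneg _)
    rw [← Finset.sum_mul] at h4
    rw [← hzr]
    have h5 : 0 ≤ |(z (f j0) m : ℝ)| := abs_nonneg _
    rw [hc1]
    nlinarith
  -- the largest element
  have : Nonempty J := ⟨⟨j0, Or.inl hαj0⟩⟩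
  have hmaxJ : ∀ m, ∃ j : J, ∀ j' : J, |(a m (f j'.1) : ℝ) * u m (f j'.1)| ≤
      |(a m (f j.1) : ℝ) * u m (f j.1)| := fun m =>
    Finite.exists_max (fun j : J => |(a m (f j.1) : ℝ) * u m (f j.1)|)
  choose gJ hgJ using hmaxJ
  obtain ⟨jm, hjm⟩ := const_of_finite U Set.univ Set.finite_univ gJ
    (Filter.Eventually.of_forall fun _ => Set.mem_univ _)
  have hjm' : ∀ᶠ m : ℕ in (U : Filter ℕ), ∀ j' : J, |(a m (f j'.1) : ℝ) * u m (f j'.1)| ≤
      |(a m (f jm.1) : ℝ) * u m (f jm.1)| := by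
    filter_upwards [hjm] with m hm
    have := hgJ m
    rwa [hm] at this
  by_cases hbig : ∀ᶠ m : ℕ in (U : Filter ℕ),
      (q m : ℝ) ^ (4 + 2 * C) < |(a m (f jm.1) : ℝ) * u m (f jm.1)|
  · -- large terms
    set N1 : ℕ → ℝ := fun m => Real.log |(a m (f jm.1) : ℝ) * u m (f jm.1)| with hN1def
    have hpos : ∀ᶠ m : ℕ in (U : Filter ℕ), 0 < |(a m (f jm.1) : ℝ) * u m (f jm.1)| := by
      filter_upwards [hbig] with m hm
      exact lt_trans (Real.rpow_pos_of_pos (hq0 m) _) hm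
    have hN1le : ∀ᶠ m : ℕ in (U : Filter ℕ), (4 + 2 * C) * N m ≤ N1 m := by
      filter_upwards [hbig, hpos] with m hm h0
      have h1 := Real.log_le_log (Real.rpow_pos_of_pos (hq0 m) _) hm.le
      rwa [Real.log_rpow (hq0 m)] at h1
    have hN1 : Tendsto N1 U atTop :=
      tendsto_atTop_mono' _ hN1le (hN.const_mul_atTop (by positivity))
    -- the form
    have hform : ∃ w : κ → ℚ, w jm.1 ≠ 0 ∧ (∀ j, α j = 0 → β j = 0 → w j = 0) ∧
        ∀ᶠ m in (U : Filter ℕ), |∑ j, (w j : ℝ) * (z (f j) m : ℝ)| ≤ (|ξ| + 1) * q m := by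
      rcases jm.2 with h | h
      · refine ⟨α, h, fun j h1 _ => h1, ?_⟩
        filter_upwards [hqe] with m hm
        rw [← hm, Nat.abs_cast]
        have h1 := hq0 m
        have h2 := abs_nonneg ξ
        nlinarith
      · refine ⟨β, h, fun j _ h1 => h1, ?_⟩
        filter_upwards [hpe] with m hm
        rw [← hm]
        exact hpq m
    obtain ⟨w, hw0, hwz, hw⟩ := hform
    refine core U S (κ := J) jm N1 hN1 (fun j m => a m (f j.1)) (fun j m => u m (f j.1))
      (fun j m => hu m _) hliJ (fun j => (w j.1 : ℝ))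
      (fun j => isAlgebraic_algebraMap (R := ℚ) (A := ℝ) (w j.1))
      (by exact_mod_cast hw0) 1 (1 / 2) zero_le_one (by norm_num) ?_ ?_
    · filter_upwards [hjm', hpos] with m h1 h2 j
      rw [one_mul, Real.exp_log h2]
      exact h1 j
    · have hK : ∀ᶠ m in (U : Filter ℕ), Real.log (|ξ| + 1) ≤ N m := hN.eventually_ge_atTop _
      filter_upwards [hw, hpos, hN1le, hK] with m h1 h2 h3 h4
      rw [← hsumJ (fun j => (w j : ℝ)) m (fun j h1 h2 => by rw [hwz j h1 h2, Rat.cast_zero])]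
      refine h1.trans ?_
      rw [le_div_iff₀ (hHJ0 m)]
      have h5 : ∏ j : J, ht (a m (f j.1)) ≤ Real.exp (C * N m) := by
        refine ((hHJ m).trans (hHC m)).trans (le_of_eq ?_)
        rw [hqexp m, ← Real.exp_mul, mul_comm]
      have h6 : |(a m (f jm.1) : ℝ) * u m (f jm.1)| = Real.exp (N1 m) := (Real.exp_log h2).symm
      have h7 : |ξ| + 1 ≤ Real.exp (N m) := by
        rw [← Real.exp_log (by positivity : (0 : ℝ) < |ξ| + 1)]
        exact Real.exp_le_exp.2 h4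
      rw [h6, ← Real.exp_add, hqexp m]
      have h8 : (|ξ| + 1) * Real.exp (N m) * ∏ j : J, ht (a m (f j.1)) ≤
          Real.exp (N m) * Real.exp (N m) * Real.exp (C * N m) := by
        apply mul_le_mul _ h5 (hHJ0 m).le (by positivity)
        exact mul_le_mul_of_nonneg_right h7 (Real.exp_pos _).le
      refine h8.trans ?_
      rw [← Real.exp_add, ← Real.exp_add]
      apply Real.exp_le_exp.2
      nlinarith
  · -- polynomially bounded terms
    have hsmall : ∀ᶠ m : ℕ in (U : Filter ℕ),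
        |(a m (f jm.1) : ℝ) * u m (f jm.1)| ≤ (q m : ℝ) ^ (4 + 2 * C) := by
      filter_upwards [Ultrafilter.eventually_not.2 hbig] with m hm
      exact not_lt.1 hm
    refine core U S (κ := J) ⟨j0, Or.inl hαj0⟩ N hN (fun j m => a m (f j.1))
      (fun j m => u m (f j.1)) (fun j m => hu m _) hliJ
      (fun j => (β j.1 : ℝ) - ξ * (α j.1 : ℝ)) (fun j =>
        (isAlgebraic_algebraMap (R := ℚ) (A := ℝ) (β j.1)).sub
          (hξ.mul (isAlgebraic_algebraMap (R := ℚ) (A := ℝ) (α j.1))))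
      ?_ (4 + 2 * C) (ε / 2) (by positivity) (by positivity) ?_ ?_
    · intro h0
      have h1 : (α j0 : ℝ) ≠ 0 := by exact_mod_cast hαj0
      apply hirr
      refine ⟨β j0 / α j0, ?_⟩
      push_cast
      rw [div_eq_iff h1]
      simp only at h0
      linarith
    · filter_upwards [hjm', hsmall] with m h1 h2 j
      refine ((h1 j).trans h2).trans (le_of_eq ?_)
      rw [hqexp m, ← Real.exp_mul, mul_comm]
    · have hK : ∀ᶠ m in (U : Filter ℕ), Real.log c1 ≤ ε / 2 * N m :=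
        (hN.const_mul_atTop (by positivity)).eventually_ge_atTop _
      filter_upwards [hqle, hqe, hpe, hK] with m h1 h2 h3 h4
      rw [← hsumJ (fun j => (β j : ℝ) - ξ * (α j : ℝ)) m (fun j h1 h2 => by
        rw [h1, h2, Rat.cast_zero]; ring)]
      have h5 : ∑ j, ((β j : ℝ) - ξ * (α j : ℝ)) * (z (f j) m : ℝ) = (p m : ℝ) - ξ * q m := by
        rw [h2, h3, Finset.mul_sum, ← Finset.sum_sub_distrib]
        refine Finset.sum_congr rfl fun j _ => ?_
        ring
      rw [h5]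
      have h6 : (p m : ℝ) - ξ * q m = -(q m * (ξ - (p m : ℝ) / q m)) := by
        have := (hq0 m).ne'
        field_simp
        ring
      rw [h6, abs_neg, abs_mul, Nat.abs_cast]
      have h7 : |ξ - (p m : ℝ) / q m| ≤ (q m : ℝ) ^ (-ε) / ∏ j : J, ht (a m (f j.1)) := by
        refine (hbad m).trans ?_
        have h9 : (0 : ℝ) < (q m : ℝ) ^ (-ε) := Real.rpow_pos_of_pos (hq0 m) _
        have h8 : 0 ≤ (q m : ℝ) ^ (-ε) / ∏ t, ht (a m t) :=
          div_nonneg h9.le (by linarith [hH1 m])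
        have h10 : (q m : ℝ) ^ (-ε) / ∏ t, ht (a m t) ≤
            (q m : ℝ) ^ (-ε) / ∏ j : J, ht (a m (f j.1)) :=
          div_le_div_of_nonneg_left h9.le (hHJ0 m) (hHJ m)
        have h11 := hone m
        have h12 : (0 : ℝ) ≤ 1 / ((m : ℝ) + 1) := by positivity
        nlinarith
      have h8 : (q m : ℝ) * |ξ - (p m : ℝ) / q m| ≤
          (q m : ℝ) * ((q m : ℝ) ^ (-ε) / ∏ j : J, ht (a m (f j.1))) :=
        mul_le_mul_of_nonneg_left h7 (hq0 m).le
      refine h8.trans ?_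
      rw [← mul_div_assoc]
      apply div_le_div_of_nonneg_right _ (hHJ0 m).le
      have h9 : (q m : ℝ) ^ (-ε) = Real.exp (-(ε * N m)) := by
        rw [hqexp m, ← Real.exp_mul]
        congr 1
        ring
      have h10 : c1 ≤ Real.exp (ε / 2 * N m) := by
        rw [← Real.exp_log hc1pos]
        exact Real.exp_le_exp.2 h4
      rw [h9]
      calc (q m : ℝ) * Real.exp (-(ε * N m)) ≤
          (c1 * |(a m (f j0) : ℝ) * u m (f j0)|) * Real.exp (-(ε * N m)) :=
            mul_le_mul_of_nonneg_right h1 (Real.exp_pos _).le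
        _ ≤ (Real.exp (ε / 2 * N m) * |(a m (f j0) : ℝ) * u m (f j0)|) *
              Real.exp (-(ε * N m)) := by
            apply mul_le_mul_of_nonneg_right _ (Real.exp_pos _).le
            exact mul_le_mul_of_nonneg_right h10 (abs_nonneg _)
        _ = (Real.exp (ε / 2 * N m) * Real.exp (-(ε * N m))) *
              |(a m (f j0) : ℝ) * u m (f j0)| := by ring
        _ = Real.exp (-(ε / 2 * N m)) * |(a m (f j0) : ℝ) * u m (f j0)| := by
            rw [← Real.exp_add]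
            congr 2
            ring

end Pool.Agent.D0H59.AR
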