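import Mathlib
import Pool.Agent.D0H59.AR.Main

/-!
# The additive form of Roth's theorem: uniform statements and digits
-/

set_option autoImplicit false

open Finset Filter Topology

namespace Pool.Agent.D0H59.AR

lemma one_le_prod_ht {k : ℕ} (a : Fin k → ℤ) : 1 ≤ ∏ t, ht (a t) := by
  have : ∏ t : Fin k, (1 : ℝ) ≤ ∏ t, ht (a t) :=
    Finset.prod_le_prod (fun _ _ => zero_le_one) fun t _ => one_le_ht _
  simpa using this

lemma liouville (ξ : ℝ) (hξ : IsAlgebraic ℚ ξ) (hirr : Irrational ξ) :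
    ∃ (D : ℕ) (c : ℝ), 0 < c ∧ ∀ (p : ℤ) (q : ℕ), 1 ≤ q →
      c / (q : ℝ) ^ D ≤ |ξ - (p : ℝ) / q| := by
  have h1 : IsAlgebraic ℤ ξ := (IsFractionRing.isAlgebraic_iff ℤ ℚ ℝ).2 hξ
  obtain ⟨f, f0, hf⟩ := h1
  have hf' : (f.map (algebraMap ℤ ℝ)).eval ξ = 0 := by
    rwa [← Polynomial.eval_map_algebraMap] at hf
  obtain ⟨A, hA, h⟩ := Liouville.exists_pos_real_of_irrational_root hirr f0 hf'
  refine ⟨f.natDegree, 1 / A, by positivity, fun p q hq => ?_⟩
  have h2 := h p (q - 1)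
  have h3 : (((q - 1 : ℕ) : ℝ) + 1) = q := by
    rw [Nat.cast_sub hq]
    push_cast
    ring
  rw [h3] at h2
  have hq0 : (0 : ℝ) < q := by exact_mod_cast hq
  rw [div_le_iff₀ (pow_pos hq0 _), div_le_iff₀ hA]
  calc (1 : ℝ) ≤ _ := h2
    _ = _ := by ring

theorem roth (ξ : ℝ) (hξ : IsAlgebraic ℚ ξ) (hirr : Irrational ξ) (S : Finset ℕ) (k M : ℕ)
    (ε : ℝ) (hε : 0 < ε) :
    ∃ c : ℝ, 0 < c ∧ ∀ (p : ℤ) (q : ℕ), 1 ≤ q →
      ∀ (a : Fin k → ℤ) (u : Fin k → ℕ) (b d : Fin k → ℤ),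
        (∀ t, u t ∈ Nat.factoredNumbers S) → (∀ t, |b t| ≤ M) → (∀ t, |d t| ≤ M) →
        p = ∑ t, b t * (a t * u t) → (q : ℤ) = ∑ t, d t * (a t * u t) →
        c * ((q : ℝ) ^ (-ε) / ∏ t, ht (a t)) < |ξ - (p : ℝ) / q| := by
  obtain ⟨D, cL, hcL, hL⟩ := liouville ξ hξ hirr
  by_contra hno
  push Not at hno
  have hc : ∀ m : ℕ, 0 < min (1 / ((m : ℝ) + 1)) cL := fun m => lt_min (by positivity) hcL
  choose p q hq a u b d hu hb hd hp hqs hbad using
    fun m : ℕ => hno (min (1 / ((m : ℝ) + 1)) cL) (hc m)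
  refine seq ξ hξ hirr S k M D ε (Nat.cast_nonneg _) hε a u b d p q hq hu hb hd ?_ hp hqs ?_
  · intro m
    have hq1 : (1 : ℝ) ≤ q m := by exact_mod_cast hq m
    have hq0 : (0 : ℝ) < q m := by linarith
    have h1 := (hL (p m) (q m) (hq m)).trans (hbad m)
    have h2 : min (1 / ((m : ℝ) + 1)) cL * ((q m : ℝ) ^ (-ε) / ∏ t, ht (a m t)) ≤
        cL * (1 / ∏ t, ht (a m t)) := by
      have h3 : (q m : ℝ) ^ (-ε) ≤ 1 := Real.rpow_le_one_of_one_le_of_nonpos hq1 (by linarith)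
      have h4 := one_le_prod_ht (a m)
      apply mul_le_mul (min_le_right _ _) _ _ hcL.le
      · exact div_le_div_of_nonneg_right h3 (by linarith)
      · exact div_nonneg (Real.rpow_nonneg hq0.le _) (by linarith)
    have h3 := h1.trans h2
    rw [div_eq_mul_inv, ← one_div] at h3
    have h4 := le_of_mul_le_mul_left h3 hcL
    rw [one_div_le_one_div (pow_pos hq0 _) (by linarith [one_le_prod_ht (a m)])] at h4
    rw [Real.rpow_natCast]
    exact h4
  · intro m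
    refine (hbad m).trans ?_
    have hq0 : (0 : ℝ) < q m := by exact_mod_cast hq m
    apply mul_le_mul_of_nonneg_right (min_le_left _ _)
    exact div_nonneg (Real.rpow_nonneg hq0.le _) (by linarith [one_le_prod_ht (a m)])

lemma abs_p_le (ξ : ℝ) (p : ℤ) (q : ℕ) (hq : 1 ≤ q) (h : |ξ - (p : ℝ) / q| ≤ 1) :
    |(p : ℝ)| ≤ (|ξ| + 1) * q := by
  have hq0 : (0 : ℝ) < q := by exact_mod_cast hq
  have h3 : |(p : ℝ) / q| ≤ |ξ| + 1 := by
    have h4 : |(p : ℝ) / q| ≤ |ξ| + |ξ - (p : ℝ) / q| := by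
      have h5 : (p : ℝ) / q = ξ + -(ξ - (p : ℝ) / q) := by ring
      calc |(p : ℝ) / q| = |ξ + -(ξ - (p : ℝ) / q)| := by rw [← h5]
        _ ≤ _ := by
            refine (abs_add_le _ _).trans ?_
            rw [abs_neg]
    linarith
  rwa [abs_div, Nat.abs_cast, div_le_iff₀ hq0] at h3

lemma abs_sgn {s : ℤ} (hs : s ≠ 0) : |s.sign| = 1 := by
  rcases lt_or_gt_of_ne hs with h | h
  · rw [Int.sign_eq_neg_one_of_neg h]
    rfl
  · rw [Int.sign_eq_one_of_pos h]
    rfl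

/-- the case where one combination `r p + s q` is a short sum -/
theorem roth2 (ξ : ℝ) (hξ : IsAlgebraic ℚ ξ) (hirr : Irrational ξ) (S : Finset ℕ) (k D : ℕ)
    (ε : ℝ) (hε : 0 < ε) :
    ∃ c : ℝ, 0 < c ∧ ∀ (p : ℤ) (q : ℕ), 1 ≤ q →
      ∀ (r s : ℤ) (a : Fin k → ℤ) (u : Fin k → ℕ), (r ≠ 0 ∨ s ≠ 0) → |r| ≤ D → |s| ≤ D →
        (∀ t, u t ∈ Nat.factoredNumbers S) → r * p + s * q = ∑ t, a t * u t →
        c * ((q : ℝ) ^ (-1 - ε) / ∏ t, ht (a t)) < |ξ - (p : ℝ) / q| := by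
  obtain ⟨c1, hc1, h1⟩ := roth ξ hξ hirr S (k + 1) (D + 1) ε hε
  set c : ℝ := min 1 (c1 * ((D : ℝ) + 1) ^ (-ε) / (|ξ| + 2)) with hc
  have hD0 : (0 : ℝ) < (D : ℝ) + 1 := by positivity
  have hc0 : 0 < c := by
    apply lt_min one_pos
    have := Real.rpow_pos_of_pos hD0 (-ε)
    positivity
  refine ⟨c / 2, by positivity, fun p q hq r s a u hrs hr hs hu h => ?_⟩
  have hq1 : (1 : ℝ) ≤ q := by exact_mod_cast hq
  have hq0 : (0 : ℝ) < q := by linarith
  have hP1 := one_le_prod_ht a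
  have hP0 : 0 < ∏ t, ht (a t) := by linarith
  have hqe : (q : ℝ) ^ (-1 - ε) ≤ 1 := Real.rpow_le_one_of_one_le_of_nonpos hq1 (by linarith)
  have hqe0 : 0 < (q : ℝ) ^ (-1 - ε) := Real.rpow_pos_of_pos hq0 _
  rcases lt_or_ge 1 |ξ - (p : ℝ) / q| with hbig | hle
  · have h2 : (q : ℝ) ^ (-1 - ε) / ∏ t, ht (a t) ≤ 1 := by
      rw [div_le_one hP0]
      linarith
    have h3 : c ≤ 1 := min_le_left _ _
    have h4 : 0 < (q : ℝ) ^ (-1 - ε) / ∏ t, ht (a t) := by positivity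
    nlinarith
  -- the common end
  have hend : ∀ (h x : ℤ) (b' d' : Fin (k + 1) → ℤ), 1 ≤ h → h ≤ D →
      |(x : ℝ)| ≤ (|ξ| + 1) * q ∨ x = q →
      (∀ t, |b' t| ≤ (D + 1 : ℕ)) → (∀ t, |d' t| ≤ (D + 1 : ℕ)) →
      h * p = ∑ t, b' t * (Fin.snoc (α := fun _ => ℤ) a x t * (Fin.snoc (α := fun _ => ℕ) u 1 t : ℕ)) →
      h * q = ∑ t, d' t * (Fin.snoc (α := fun _ => ℤ) a x t * (Fin.snoc (α := fun _ => ℕ) u 1 t : ℕ)) →
      c / 2 * ((q : ℝ) ^ (-1 - ε) / ∏ t, ht (a t)) < |ξ - (p : ℝ) / q| := by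
    intro h x b' d' hh hhD hx hb' hd' hp' hq'
    obtain ⟨n, rfl⟩ : ∃ n : ℕ, h = n := ⟨h.toNat, by omega⟩
    have hn1 : 1 ≤ n := by omega
    have hnD : n ≤ D := by omega
    have h2 := h1 (n * p) (n * q) (by nlinarith) (Fin.snoc (α := fun _ => ℤ) a x)
      (Fin.snoc (α := fun _ => ℕ) u 1) b' d' (by
        intro t
        induction t using Fin.lastCases with
        | last =>
          rw [Fin.snoc_last]
          exact ⟨one_ne_zero, by simp⟩
        | cast t =>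
          rw [Fin.snoc_castSucc]
          exact hu t) hb' hd' hp' (by push_cast; exact hq')
    have hn0 : (0 : ℝ) < n := by exact_mod_cast hn1
    have h3 : ((n * p : ℤ) : ℝ) / ((n * q : ℕ) : ℝ) = (p : ℝ) / q := by
      push_cast
      rw [mul_div_mul_left _ _ hn0.ne']
    rw [h3] at h2
    refine lt_of_le_of_lt ?_ h2
    rw [Fin.prod_univ_castSucc]
    simp only [Fin.snoc_castSucc, Fin.snoc_last]
    have hx' : ht x ≤ (|ξ| + 2) * q := by
      unfold ht
      have h0 := abs_nonneg ξ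
      apply max_le
      · nlinarith
      · rcases hx with hx | hx
        · nlinarith
        · rw [hx]
          push_cast
          rw [Nat.abs_cast]
          nlinarith
    have h4 : (((n * q : ℕ) : ℝ)) ^ (-ε) = (n : ℝ) ^ (-ε) * (q : ℝ) ^ (-ε) := by
      push_cast
      exact Real.mul_rpow hn0.le hq0.le
    have h5 : ((D : ℝ) + 1) ^ (-ε) ≤ (n : ℝ) ^ (-ε) := by
      apply Real.rpow_le_rpow_of_nonpos hn0 _ (by linarith)
      have : (n : ℝ) ≤ D := by exact_mod_cast hnD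
      linarith
    have h6 : (q : ℝ) ^ (-1 - ε) = (q : ℝ) ^ (-ε) / q := by
      rw [show -1 - ε = -ε - 1 by ring, Real.rpow_sub hq0, Real.rpow_one]
    have h7 : c ≤ c1 * ((D : ℝ) + 1) ^ (-ε) / (|ξ| + 2) := min_le_right _ _
    have hξ2 : 0 < |ξ| + 2 := by positivity
    have h8 : 0 < (q : ℝ) ^ (-ε) := Real.rpow_pos_of_pos hq0 _
    rw [h4, h6]
    calc c / 2 * ((q : ℝ) ^ (-ε) / q / ∏ t, ht (a t)) ≤
        c * ((q : ℝ) ^ (-ε) / q / ∏ t, ht (a t)) := by
          apply mul_le_mul_of_nonneg_right (by linarith) (by positivity)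
      _ ≤ c1 * ((D : ℝ) + 1) ^ (-ε) / (|ξ| + 2) * ((q : ℝ) ^ (-ε) / q / ∏ t, ht (a t)) := by
          apply mul_le_mul_of_nonneg_right h7 (by positivity)
      _ = c1 * ((((D : ℝ) + 1) ^ (-ε) * (q : ℝ) ^ (-ε)) /
            ((∏ t, ht (a t)) * ((|ξ| + 2) * q))) := by
          field_simp
      _ ≤ c1 * ((n : ℝ) ^ (-ε) * (q : ℝ) ^ (-ε) / ((∏ t, ht (a t)) * ht x)) := by
          apply mul_le_mul_of_nonneg_left _ hc1.le
          apply div_le_div₀ (by positivity) _ (mul_pos hP0 (ht_pos x)) _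
          · exact mul_le_mul_of_nonneg_right h5 h8.le
          · exact mul_le_mul_of_nonneg_left hx' hP0.le
  by_cases hr0 : r = 0
  · have hs0 : s ≠ 0 := by
      rcases hrs with h2 | h2
      · exact absurd hr0 h2
      · exact h2
    refine hend |s| p (Fin.snoc (α := fun _ => ℤ) (fun _ => 0) |s|)
      (Fin.snoc (α := fun _ => ℤ) (fun _ => s.sign) 0) (Int.one_le_abs hs0) hs
      (Or.inl (abs_p_le ξ p q hq hle)) ?_ ?_ ?_ ?_
    · intro t
      induction t using Fin.lastCases with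
      | last =>
        rw [Fin.snoc_last, abs_abs]
        push_cast
        linarith
      | cast t =>
        rw [Fin.snoc_castSucc, abs_zero]
        positivity
    · intro t
      induction t using Fin.lastCases with
      | last =>
        rw [Fin.snoc_last, abs_zero]
        positivity
      | cast t =>
        rw [Fin.snoc_castSucc]
        push_cast
        rw [abs_sgn hs0]
        omega
    · rw [Fin.sum_univ_castSucc]
      simp only [Fin.snoc_castSucc, Fin.snoc_last]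
      simp
    · rw [Fin.sum_univ_castSucc]
      simp only [Fin.snoc_castSucc, Fin.snoc_last]
      rw [← Finset.mul_sum, ← h, hr0]
      have := Int.sign_mul_self_eq_abs s
      rw [← this]
      ring
  · refine hend |r| q (Fin.snoc (α := fun _ => ℤ) (fun _ => r.sign) (-(r.sign * s)))
      (Fin.snoc (α := fun _ => ℤ) (fun _ => 0) |r|) (Int.one_le_abs hr0) hr
      (Or.inr rfl) ?_ ?_ ?_ ?_
    · intro t
      induction t using Fin.lastCases with
      | last =>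
        rw [Fin.snoc_last, abs_neg, abs_mul, abs_sgn hr0, one_mul]
        push_cast
        linarith
      | cast t =>
        rw [Fin.snoc_castSucc]
        push_cast
        rw [abs_sgn hr0]
        omega
    · intro t
      induction t using Fin.lastCases with
      | last =>
        rw [Fin.snoc_last, abs_abs]
        push_cast
        linarith
      | cast t =>
        rw [Fin.snoc_castSucc, abs_zero]
        positivity
    · rw [Fin.sum_univ_castSucc]
      simp only [Fin.snoc_castSucc, Fin.snoc_last]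
      rw [← Finset.mul_sum, ← h]
      have := Int.sign_mul_self_eq_abs r
      rw [← this]
      push_cast
      ring
    · rw [Fin.sum_univ_castSucc]
      simp only [Fin.snoc_castSucc, Fin.snoc_last]
      simp

/-- from exponent `2` to Lang's inequality -/
lemma lang_of (q : ℕ) (hq : 2 ≤ q) (c ε x : ℝ) (hc : 0 < c) (hε : 0 < ε)
    (h : c * (q : ℝ) ^ (-2 : ℝ) < x) :
    c * (Real.log 2) ^ (1 + ε) / ((q : ℝ) ^ 2 * (Real.log q) ^ (1 + ε)) < x := by
  refine lt_of_le_of_lt ?_ h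
  have hq2 : (2 : ℝ) ≤ q := by exact_mod_cast hq
  have hq0 : (0 : ℝ) < q := by linarith
  have hl2 : 0 < Real.log 2 := Real.log_pos one_lt_two
  have hl : Real.log 2 ≤ Real.log q := Real.log_le_log two_pos hq2
  have h1 : (Real.log 2) ^ (1 + ε) ≤ (Real.log q) ^ (1 + ε) :=
    Real.rpow_le_rpow hl2.le hl (by linarith)
  have h2 : 0 < (Real.log q) ^ (1 + ε) := Real.rpow_pos_of_pos (by linarith) _
  have h3 : (q : ℝ) ^ (-2 : ℝ) = 1 / (q : ℝ) ^ 2 := by
    rw [Real.rpow_neg hq0.le, one_div]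
    norm_cast
  rw [h3, div_le_iff₀ (by positivity)]
  have h4 : c * (1 / (q : ℝ) ^ 2) * ((q : ℝ) ^ 2 * (Real.log q) ^ (1 + ε)) =
      c * (Real.log q) ^ (1 + ε) := by
    field_simp
  rw [h4]
  exact mul_le_mul_of_nonneg_left h1 hc.le

lemma block (g n i0 L ρ : ℕ)
    (h : ∀ i, i0 ≤ i → i < i0 + L → (n / g ^ i) % g = (n / g ^ (i + ρ)) % g) :
    (n / g ^ i0) % g ^ L = (n / g ^ (i0 + ρ)) % g ^ L := by
  induction L with
  | zero => simp [Nat.mod_one]
  | succ L ih =>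
    rw [Nat.mod_pow_succ, Nat.mod_pow_succ, ih fun i h1 h2 => h i h1 (by omega)]
    have h1 := h (i0 + L) (by omega) (by omega)
    rw [Nat.div_div_eq_div_mul, Nat.div_div_eq_div_mul, ← pow_add, ← pow_add, h1,
      show i0 + ρ + L = i0 + L + ρ by omega]

/-- a number with a long periodic block of digits -/
lemma block' (g n i0 L ρ : ℕ) (hg : 2 ≤ g) (hn : g ^ (i0 + L) ≤ n)
    (h : ∀ i, i0 ≤ i → i < i0 + L → (n / g ^ i) % g = (n / g ^ (i + ρ)) % g) :
    ∃ (W : ℕ) (B : ℤ), ((g : ℤ) ^ ρ - 1) * n = W * (g ^ (i0 + ρ + L) : ℕ) + B * (1 : ℕ) ∧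
      ht W * ht B * (g : ℝ) ^ L ≤ (g : ℝ) ^ ρ * n := by
  have h1 := block g n i0 L ρ h
  set X := n / g ^ i0 with hX
  set Y := n / g ^ (i0 + ρ) with hY
  have hYX : Y ≤ X := Nat.div_le_div_left (Nat.pow_le_pow_right (by omega) (by omega))
    (by positivity)
  have hdvd : g ^ L ∣ X - Y := (Nat.modEq_iff_dvd' hYX).1 (by
    unfold Nat.ModEq
    exact h1.symm)
  obtain ⟨W, hW⟩ := hdvd
  have hXe : (X : ℤ) = Y + g ^ L * W := by
    have : X = Y + g ^ L * W := by omega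
    exact_mod_cast this
  have hn1 : (n : ℤ) = g ^ i0 * X + (n % g ^ i0 : ℕ) := by
    have := Nat.div_add_mod n (g ^ i0)
    exact_mod_cast this.symm
  have hn2 : (n : ℤ) = g ^ (i0 + ρ) * Y + (n % g ^ (i0 + ρ) : ℕ) := by
    have := Nat.div_add_mod n (g ^ (i0 + ρ))
    exact_mod_cast this.symm
  have hg0 : 0 < g := by omega
  have hm1 : (n % g ^ i0 : ℕ) < g ^ i0 := Nat.mod_lt _ (by positivity)
  have hm2 : (n % g ^ (i0 + ρ) : ℕ) < g ^ (i0 + ρ) := Nat.mod_lt _ (by positivity)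
  refine ⟨W, (g : ℤ) ^ ρ * (n % g ^ i0 : ℕ) - (n % g ^ (i0 + ρ) : ℕ), ?_, ?_⟩
  · push_cast
    calc ((g : ℤ) ^ ρ - 1) * n = g ^ ρ * n - n := by ring
      _ = g ^ ρ * (g ^ i0 * X + (n % g ^ i0 : ℕ)) -
            (g ^ (i0 + ρ) * Y + (n % g ^ (i0 + ρ) : ℕ)) := by rw [← hn1, ← hn2]
      _ = _ := by
          rw [hXe]
          push_cast
          ring
  · have hgR : (0 : ℝ) < g := by exact_mod_cast hg0
    have hWle : (W : ℝ) * (g : ℝ) ^ (i0 + L) ≤ n := by
      have h2 : W * g ^ (i0 + L) ≤ n := by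
        have h3 : g ^ i0 * X ≤ n := Nat.mul_div_le n (g ^ i0)
        have h4 : g ^ L * W ≤ X := by
          rw [← hW]
          exact Nat.sub_le X Y
        calc W * g ^ (i0 + L) = g ^ i0 * (g ^ L * W) := by ring
          _ ≤ g ^ i0 * X := Nat.mul_le_mul_left _ h4
          _ ≤ n := h3
      exact_mod_cast h2
    have hnR : (g : ℝ) ^ (i0 + L) ≤ n := by exact_mod_cast hn
    have hW' : ht W * (g : ℝ) ^ (i0 + L) ≤ n := by
      unfold ht
      rw [max_mul_of_nonneg _ _ (by positivity)]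
      apply max_le
      · rw [one_mul]
        exact hnR
      · push_cast
        rw [Nat.abs_cast]
        exact hWle
    have hB' : ht ((g : ℤ) ^ ρ * (n % g ^ i0 : ℕ) - (n % g ^ (i0 + ρ) : ℕ)) ≤
        (g : ℝ) ^ (i0 + ρ) := by
      unfold ht
      apply max_le
      · apply one_le_pow₀
        exact_mod_cast (by omega : 1 ≤ g)
      · have h2 : |(g : ℤ) ^ ρ * (n % g ^ i0 : ℕ) - (n % g ^ (i0 + ρ) : ℕ)| ≤
            (g : ℤ) ^ (i0 + ρ) := by
          rw [abs_le]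
          have h3 : ((n % g ^ i0 : ℕ) : ℤ) ≤ g ^ i0 := by exact_mod_cast hm1.le
          have h4 : ((n % g ^ (i0 + ρ) : ℕ) : ℤ) ≤ g ^ (i0 + ρ) := by exact_mod_cast hm2.le
          have h5 : (0 : ℤ) ≤ (g : ℤ) ^ ρ * (n % g ^ i0 : ℕ) := by positivity
          have h6 : (g : ℤ) ^ ρ * (n % g ^ i0 : ℕ) ≤ (g : ℤ) ^ (i0 + ρ) := by
            calc (g : ℤ) ^ ρ * (n % g ^ i0 : ℕ) ≤ (g : ℤ) ^ ρ * g ^ i0 :=
                  mul_le_mul_of_nonneg_left h3 (by positivity)
              _ = _ := by rw [← pow_add, add_comm]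
          have h7 : (0 : ℤ) ≤ ((n % g ^ (i0 + ρ) : ℕ) : ℤ) := Int.natCast_nonneg _
          constructor
          · linarith
          · linarith
        exact_mod_cast h2
    calc ht W * ht ((g : ℤ) ^ ρ * (n % g ^ i0 : ℕ) - (n % g ^ (i0 + ρ) : ℕ)) * (g : ℝ) ^ L ≤
        ht W * (g : ℝ) ^ (i0 + ρ) * (g : ℝ) ^ L := by
          apply mul_le_mul_of_nonneg_right _ (by positivity)
          exact mul_le_mul_of_nonneg_left hB' (ht_pos _).le
      _ = (g : ℝ) ^ ρ * (ht W * (g : ℝ) ^ (i0 + L)) := by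
          rw [pow_add, pow_add]
          ring
      _ ≤ _ := mul_le_mul_of_nonneg_left hW' (by positivity)

end Pool.Agent.D0H59.AR
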